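import Pool.Agent.Lib_helper12.HE.Defs

/-! Project HE (MP_b08f5f_an), block A: averages over one period. -/

set_option autoImplicit false

namespace Pool.Agent.Lib_helper12.HE

open MeasureTheory Filter Topology Set
open scoped ComplexConjugate ENNReal
open Pool.Agent.Lib_helper25.PV (Conf vel Motion centre inertia NC VFlow)

noncomputable section

theorem A_turn_ideal (N : ℕ) (o : Fin N) (θ : ℝ) (b : ℂ) :
    turn θ (ideal N o b) = ideal N o (Complex.exp (θ * Complex.I) * b) := by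
  funext i
  simp only [turn, ideal]
  split_ifs
  · ring
  · ring

theorem A_periodic (f : ℂ → ℝ) :
    Function.Periodic (fun s : ℝ => f (Complex.exp (s * Complex.I))) (2 * Real.pi) := by
  intro s
  show f (Complex.exp (((s + 2 * Real.pi : ℝ) : ℂ) * Complex.I)) = f (Complex.exp (s * Complex.I))
  congr 1
  rw [show (((s + 2 * Real.pi : ℝ) : ℂ) * Complex.I) = s * Complex.I + 2 * Real.pi * Complex.I by
    push_cast; ring, Complex.exp_add, Complex.exp_two_pi_mul_I, mul_one]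

theorem A_circle_shift (f : ℂ → ℝ) (θ : ℝ) :
    ∫ s in (0 : ℝ)..2 * Real.pi, f (Complex.exp (θ * Complex.I) * Complex.exp (s * Complex.I)) =
      ∫ s in (0 : ℝ)..2 * Real.pi, f (Complex.exp (s * Complex.I)) := by
  have h1 : ∀ s : ℝ, Complex.exp (θ * Complex.I) * Complex.exp (s * Complex.I) =
      Complex.exp (((s + θ : ℝ) : ℂ) * Complex.I) := by
    intro s
    rw [← Complex.exp_add]
    congr 1
    push_cast
    ring
  calc _ = ∫ s in (0 : ℝ)..2 * Real.pi, (fun s : ℝ => f (Complex.exp (s * Complex.I))) (s + θ) := by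
        refine intervalIntegral.integral_congr fun s _ => ?_
        simp only [h1]
    _ = ∫ s in (0 + θ)..(2 * Real.pi + θ), (fun s : ℝ => f (Complex.exp (s * Complex.I))) s :=
        intervalIntegral.integral_comp_add_right
          (fun s : ℝ => f (Complex.exp (s * Complex.I))) θ
    _ = _ := by
        have := (A_periodic f).intervalIntegral_add_eq (0 + θ) 0
        rw [show 2 * Real.pi + θ = 0 + θ + 2 * Real.pi by ring, this, zero_add]

theorem A_circ_turn (N : ℕ) (Ψ : Conf N → ℝ) (o : Fin N) (θ : ℝ) :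
    circ N (fun z => Ψ (turn θ z)) o = circ N Ψ o := by
  unfold circ
  simp only [A_turn_ideal]
  rw [A_circle_shift (fun c => Ψ (ideal N o c)) θ]

theorem A_one_ideal (N : ℕ) (Φ : ℂ → ℝ) (o : Fin N) (b : ℂ) :
    one N Φ (ideal N o b) = (Φ ((Real.sqrt (N - 1) : ℂ) * b) +
      ((N : ℝ) - 1) * Φ (-((Real.sqrt (N - 1) : ℂ)⁻¹ * b))) / N := by
  unfold one
  congr 1
  rw [← Finset.add_sum_erase Finset.univ _ (Finset.mem_univ o)]
  have h1 : ideal N o b o = (Real.sqrt (N - 1) : ℂ) * b := by simp [ideal]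
  have h2 : ∑ k ∈ Finset.univ.erase o, Φ (ideal N o b k) =
      ∑ k ∈ Finset.univ.erase o, Φ (-((Real.sqrt (N - 1) : ℂ)⁻¹ * b)) := by
    refine Finset.sum_congr rfl fun k hk => ?_
    have hk' : k ≠ o := Finset.ne_of_mem_erase hk
    simp [ideal, hk']
  rw [h1, h2, Finset.sum_const, Finset.card_erase_of_mem (Finset.mem_univ o), Finset.card_univ,
    Fintype.card_fin, nsmul_eq_mul]
  have hN1 : 1 ≤ N := Nat.one_le_iff_ne_zero.mpr (by rintro rfl; exact o.elim0)
  rw [Nat.cast_sub hN1, Nat.cast_one]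

theorem A_circ_one (N : ℕ) (hN : 3 ≤ N) (Φ : ℂ → ℝ) (hΦ : Continuous Φ) (o : Fin N) :
    circ N (one N Φ) o = mstar N Φ := by
  unfold circ mstar
  simp only [A_one_ideal]
  have hN0 : (N : ℝ) ≠ 0 := by
    have : (3 : ℝ) ≤ N := by exact_mod_cast hN
    positivity
  have hc1 : Continuous fun s : ℝ => Φ ((Real.sqrt (N - 1) : ℂ) * Complex.exp (s * Complex.I)) := by
    fun_prop
  have hc2 : Continuous fun s : ℝ =>
      Φ (-((Real.sqrt (N - 1) : ℂ)⁻¹ * Complex.exp (s * Complex.I))) := by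
    fun_prop
  have h3 : ∫ s in (0 : ℝ)..2 * Real.pi,
      (Φ ((Real.sqrt (N - 1) : ℂ) * Complex.exp (s * Complex.I)) +
      ((N : ℝ) - 1) * Φ (-((Real.sqrt (N - 1) : ℂ)⁻¹ * Complex.exp (s * Complex.I)))) / N =
      ((∫ s in (0 : ℝ)..2 * Real.pi, Φ ((Real.sqrt (N - 1) : ℂ) * Complex.exp (s * Complex.I))) +
      ((N : ℝ) - 1) * ∫ s in (0 : ℝ)..2 * Real.pi,
        Φ (-((Real.sqrt (N - 1) : ℂ)⁻¹ * Complex.exp (s * Complex.I)))) / N := by
    have hc3 : Continuous fun s : ℝ =>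
        ((N : ℝ) - 1) * Φ (-((Real.sqrt (N - 1) : ℂ)⁻¹ * Complex.exp (s * Complex.I))) :=
      continuous_const.mul hc2
    rw [intervalIntegral.integral_div, intervalIntegral.integral_add
      (hc1.intervalIntegrable _ _) (hc3.intervalIntegrable _ _),
      intervalIntegral.integral_const_mul]
  have h4 : ∫ s in (0 : ℝ)..2 * Real.pi,
      Φ (-((Real.sqrt (N - 1) : ℂ)⁻¹ * Complex.exp (s * Complex.I))) =
      ∫ s in (0 : ℝ)..2 * Real.pi, Φ ((Real.sqrt (N - 1) : ℂ)⁻¹ * Complex.exp (s * Complex.I)) := by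
    have := A_circle_shift (fun c => Φ ((Real.sqrt (N - 1) : ℂ)⁻¹ * c)) Real.pi
    rw [← this]
    refine intervalIntegral.integral_congr fun s _ => ?_
    simp only [Complex.exp_pi_mul_I]
    congr 1
    ring
  rw [h3, h4]
  generalize (∫ s in (0 : ℝ)..2 * Real.pi,
    Φ ((Real.sqrt (N - 1) : ℂ) * Complex.exp (s * Complex.I))) = I1
  generalize (∫ s in (0 : ℝ)..2 * Real.pi,
    Φ ((Real.sqrt (N - 1) : ℂ)⁻¹ * Complex.exp (s * Complex.I))) = I2
  have hpi : Real.pi ≠ 0 := Real.pi_ne_zero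
  field_simp
  ring

theorem A_per_pos (N : ℕ) (hN : 3 ≤ N) : 0 < Om N ∧ 0 < per N ∧ Om N * per N = 2 * Real.pi := by
  have h3 : (3 : ℝ) ≤ N := by exact_mod_cast hN
  have h0 : 0 < Om N := by
    unfold Om
    have : (0 : ℝ) < N - 1 := by linarith
    have := Real.pi_pos
    positivity
  refine ⟨h0, ?_, ?_⟩
  · unfold per
    have := Real.pi_pos
    positivity
  · unfold per
    field_simp

/-- the average over the ideal motion -/
theorem A_ideal_avg (N : ℕ) (hN : 3 ≤ N) (Ψ : Conf N → ℝ) (o : Fin N) (b : ℂ) (hb : ‖b‖ = 1) :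
    (per N)⁻¹ * (∫ t in (0 : ℝ)..per N,
      Ψ (ideal N o (Complex.exp (-(Om N * t * Complex.I)) * b))) = circ N Ψ o := by
  obtain ⟨hO, hp, hOp⟩ := A_per_pos N hN
  set f : ℂ → ℝ := fun c => Ψ (ideal N o c) with hf
  set β : ℝ := Complex.arg b with hβ
  have hb' : b = Complex.exp (β * Complex.I) := by
    have := Complex.norm_mul_exp_arg_mul_I b
    rw [hb, Complex.ofReal_one, one_mul] at this
    exact this.symm
  have h1 : ∀ t : ℝ, Complex.exp (-(Om N * t * Complex.I)) * b =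
      Complex.exp (((-(Om N) * t + β : ℝ) : ℂ) * Complex.I) := by
    intro t
    rw [hb', ← Complex.exp_add]
    congr 1
    push_cast
    ring
  have h2 : ∫ t in (0 : ℝ)..per N, Ψ (ideal N o (Complex.exp (-(Om N * t * Complex.I)) * b)) =
      ∫ t in (0 : ℝ)..per N, (fun s : ℝ => f (Complex.exp (s * Complex.I))) (-(Om N) * t + β) := by
    refine intervalIntegral.integral_congr fun t _ => ?_
    simp only [h1, hf]
  have hO' : -(Om N) ≠ 0 := neg_ne_zero.mpr hO.ne'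
  rw [h2, intervalIntegral.integral_comp_mul_add
    (fun s : ℝ => f (Complex.exp (s * Complex.I))) hO' β]
  have h3 : -(Om N) * per N + β = β - 2 * Real.pi := by rw [neg_mul, hOp]; ring
  have h4 : -(Om N) * 0 + β = β := by ring
  rw [h3, h4, intervalIntegral.integral_symm]
  have h5 : ∫ s in (β - 2 * Real.pi)..β, (fun s : ℝ => f (Complex.exp (s * Complex.I))) s =
      ∫ s in (0 : ℝ)..2 * Real.pi, (fun s : ℝ => f (Complex.exp (s * Complex.I))) s := by
    have := (A_periodic f).intervalIntegral_add_eq (β - 2 * Real.pi) 0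
    rw [show β - 2 * Real.pi + 2 * Real.pi = β by ring, zero_add] at this
    exact this
  rw [h5]
  unfold circ
  rw [smul_eq_mul]
  have hOp' : (per N)⁻¹ * (Om N)⁻¹ = (2 * Real.pi)⁻¹ := by
    rw [← mul_inv, mul_comm (per N), hOp]
  rw [← hOp']
  ring

theorem A_norm_le {N : ℕ} (hN : 3 ≤ N) {z : Conf N} (h : (∑ i, ‖z i‖ ^ 2) / (N : ℝ) = 1) :
    ‖z‖ ≤ Real.sqrt N := by
  have hN0 : (0 : ℝ) < N := by
    have : (3 : ℝ) ≤ N := by exact_mod_cast hN
    linarith
  rw [pi_norm_le_iff_of_nonneg (Real.sqrt_nonneg _)]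
  intro i
  refine Real.le_sqrt_of_sq_le ?_
  have h1 : ∑ i, ‖z i‖ ^ 2 = N := by field_simp at h; linarith
  rw [← h1]
  exact Finset.single_le_sum (f := fun i => ‖z i‖ ^ 2) (fun i _ => sq_nonneg _) (Finset.mem_univ i)

/-- shortening the window of an average -/
theorem A_short {h : ℝ → ℝ} (hc : Continuous h) {K p q : ℝ} (hK : ∀ t, |h t| ≤ K) (hq : 0 < q)
    (hqp : q ≤ p) :
    |q⁻¹ * (∫ t in (0 : ℝ)..q, h t) - p⁻¹ * (∫ t in (0 : ℝ)..p, h t)| ≤ 2 * K * (1 - q / p) := by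
  have hp : 0 < p := lt_of_lt_of_le hq hqp
  have hsplit : ∫ t in (0 : ℝ)..p, h t = (∫ t in (0 : ℝ)..q, h t) + ∫ t in q..p, h t :=
    (intervalIntegral.integral_add_adjacent_intervals (hc.intervalIntegrable _ _)
      (hc.intervalIntegrable _ _)).symm
  have hA : |∫ t in (0 : ℝ)..q, h t| ≤ K * q := by
    have := intervalIntegral.norm_integral_le_of_norm_le_const (a := 0) (b := q) (f := h) (C := K)
      (fun t _ => by rw [Real.norm_eq_abs]; exact hK t)
    rw [Real.norm_eq_abs, sub_zero, abs_of_pos hq] at this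
    exact this
  have hB : |∫ t in q..p, h t| ≤ K * (p - q) := by
    have := intervalIntegral.norm_integral_le_of_norm_le_const (a := q) (b := p) (f := h) (C := K)
      (fun t _ => by rw [Real.norm_eq_abs]; exact hK t)
    rw [Real.norm_eq_abs, abs_of_nonneg (sub_nonneg.mpr hqp)] at this
    exact this
  have hpq : 0 ≤ q⁻¹ - p⁻¹ := sub_nonneg.mpr (inv_anti₀ hq hqp)
  rw [hsplit]
  have heq : q⁻¹ * (∫ t in (0 : ℝ)..q, h t) -
      p⁻¹ * ((∫ t in (0 : ℝ)..q, h t) + ∫ t in q..p, h t) =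
      (q⁻¹ - p⁻¹) * (∫ t in (0 : ℝ)..q, h t) - p⁻¹ * ∫ t in q..p, h t := by ring
  rw [heq]
  calc |(q⁻¹ - p⁻¹) * (∫ t in (0 : ℝ)..q, h t) - p⁻¹ * ∫ t in q..p, h t|
      ≤ |(q⁻¹ - p⁻¹) * (∫ t in (0 : ℝ)..q, h t)| + |p⁻¹ * ∫ t in q..p, h t| := abs_sub _ _
    _ = (q⁻¹ - p⁻¹) * |∫ t in (0 : ℝ)..q, h t| + p⁻¹ * |∫ t in q..p, h t| := by
        rw [abs_mul, abs_mul, abs_of_nonneg hpq, abs_of_pos (inv_pos.mpr hp)]
    _ ≤ (q⁻¹ - p⁻¹) * (K * q) + p⁻¹ * (K * (p - q)) :=
        add_le_add (mul_le_mul_of_nonneg_left hA hpq)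
          (mul_le_mul_of_nonneg_left hB (inv_pos.mpr hp).le)
    _ = 2 * K * (1 - q / p) := by
        field_simp
        ring

/-- with `per N / r ^ 2` for the length of the window, `1 ≤ r < 1 + ε` -/
theorem A_window (N : ℕ) (hN : 3 ≤ N) : ∃ C > 0, ∀ (w : ℝ → Conf N) (o : Fin N) (b : ℂ)
    (δ ε r : ℝ) (Ψ : Conf N → ℝ), Continuous w → (∀ t, (∑ i, ‖w t i‖ ^ 2) / (N : ℝ) = 1) →
    ‖b‖ = 1 → 0 ≤ δ → 0 ≤ ε → ε ≤ 1 → 1 ≤ r → r ≤ 1 + ε → LipschitzWith 1 Ψ →
    (∀ t ∈ Icc 0 (per N),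
      ‖w t - ideal N o (Complex.exp (-(Om N * t * Complex.I)) * b)‖ ≤ δ) →
    |(per N / r ^ 2)⁻¹ * (∫ t in (0 : ℝ)..per N / r ^ 2, Ψ (w t)) - circ N Ψ o| ≤
      C * (δ + ε) := by
  obtain ⟨hO, hp, hOp⟩ := A_per_pos N hN
  refine ⟨1 + 12 * Real.sqrt N, by positivity, ?_⟩
  intro w o b δ ε r Ψ hw hin hb hδ hε hε1 hr hrε hΨ hclose
  have hr0 : 0 < r := by linarith
  have hr2 : 0 < r ^ 2 := by positivity
  have hr2' : 1 ≤ r ^ 2 := by nlinarith
  have hΨc : Continuous Ψ := hΨ.continuous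
  set p := per N with hpdef
  set q := p / r ^ 2 with hqdef
  have hq : 0 < q := by positivity
  have hqp : q ≤ p := by
    rw [hqdef]
    exact div_le_self hp.le hr2'
  -- the constant
  set g0 := Ψ (w 0) with hg0
  have hK : ∀ t, |Ψ (w t) - g0| ≤ 2 * Real.sqrt N := by
    intro t
    have h1 : dist (Ψ (w t)) (Ψ (w 0)) ≤ 1 * dist (w t) (w 0) := by
      have := hΨ.dist_le_mul (w t) (w 0)
      simpa using this
    rw [Real.dist_eq, one_mul, dist_eq_norm] at h1
    have h2 : ‖w t - w 0‖ ≤ ‖w t‖ + ‖w 0‖ := norm_sub_le _ _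
    have h3 := A_norm_le hN (hin t)
    have h4 := A_norm_le hN (hin 0)
    linarith
  have hΨw : Continuous fun t => Ψ (w t) := hΨc.comp hw
  have hcont : Continuous fun t => Ψ (w t) - g0 := hΨw.sub continuous_const
  have hshort := A_short hcont hK hq hqp
  have hint : ∀ x : ℝ, x ≠ 0 → x⁻¹ * (∫ t in (0 : ℝ)..x, (Ψ (w t) - g0)) =
      x⁻¹ * (∫ t in (0 : ℝ)..x, Ψ (w t)) - g0 := by
    intro x hx
    rw [intervalIntegral.integral_sub (hΨw.intervalIntegrable _ _)
      (continuous_const.intervalIntegrable _ _), intervalIntegral.integral_const, sub_zero,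
      smul_eq_mul, mul_sub, ← mul_assoc, inv_mul_cancel₀ hx, one_mul]
  rw [hint q hq.ne', hint p hp.ne', sub_sub_sub_cancel_right] at hshort
  -- the ideal motion
  have hid : p⁻¹ * (∫ t in (0 : ℝ)..p,
      Ψ (ideal N o (Complex.exp (-(Om N * t * Complex.I)) * b))) = circ N Ψ o :=
    A_ideal_avg N hN Ψ o b hb
  have hidc : Continuous fun t : ℝ =>
      Ψ (ideal N o (Complex.exp (-(Om N * t * Complex.I)) * b)) := by
    refine hΨc.comp ?_
    refine continuous_pi fun i => ?_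
    unfold ideal
    by_cases h : i = o
    · simp only [h, if_true]
      fun_prop
    · simp only [h, if_false]
      fun_prop
  have hclose' : |p⁻¹ * (∫ t in (0 : ℝ)..p, Ψ (w t)) - circ N Ψ o| ≤ δ := by
    rw [← hid, ← mul_sub, ← intervalIntegral.integral_sub (hΨw.intervalIntegrable _ _)
      (hidc.intervalIntegrable _ _), abs_mul, abs_of_pos (inv_pos.mpr hp)]
    have h1 : |∫ t in (0 : ℝ)..p,
        (Ψ (w t) - Ψ (ideal N o (Complex.exp (-(Om N * t * Complex.I)) * b)))| ≤ δ * p := by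
      have := intervalIntegral.norm_integral_le_of_norm_le_const (a := 0) (b := p)
        (f := fun t : ℝ => Ψ (w t) - Ψ (ideal N o (Complex.exp (-(Om N * t * Complex.I)) * b)))
        (C := δ) (fun t ht => by
          rw [uIoc_of_le hp.le] at ht
          have h2 := hΨ.dist_le_mul (w t) (ideal N o (Complex.exp (-(Om N * t * Complex.I)) * b))
          rw [Real.dist_eq, NNReal.coe_one, one_mul, dist_eq_norm] at h2
          rw [Real.norm_eq_abs]
          exact h2.trans (hclose t ⟨ht.1.le, ht.2⟩))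
      rw [Real.norm_eq_abs, sub_zero, abs_of_pos hp] at this
      exact this
    calc p⁻¹ * _ ≤ p⁻¹ * (δ * p) := mul_le_mul_of_nonneg_left h1 (inv_pos.mpr hp).le
      _ = δ := by field_simp
  have hfrac : 1 - q / p ≤ 3 * ε := by
    have h1 : q / p = 1 / r ^ 2 := by rw [hqdef]; field_simp
    rw [h1]
    have h2 : r ^ 2 ≤ 1 + 3 * ε := by nlinarith
    have h3 : (1 : ℝ) / r ^ 2 ≥ 1 - 3 * ε := by
      rw [ge_iff_le, le_div_iff₀ hr2]
      nlinarith
    linarith
  have hs : 0 ≤ Real.sqrt N := Real.sqrt_nonneg _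
  calc |q⁻¹ * (∫ t in (0 : ℝ)..q, Ψ (w t)) - circ N Ψ o|
      ≤ |q⁻¹ * (∫ t in (0 : ℝ)..q, Ψ (w t)) - p⁻¹ * (∫ t in (0 : ℝ)..p, Ψ (w t))| +
        |p⁻¹ * (∫ t in (0 : ℝ)..p, Ψ (w t)) - circ N Ψ o| := abs_sub_le _ _ _
    _ ≤ 2 * (2 * Real.sqrt N) * (1 - q / p) + δ := add_le_add hshort hclose'
    _ ≤ 2 * (2 * Real.sqrt N) * (3 * ε) + δ := by
        have : 0 ≤ 2 * (2 * Real.sqrt N) := by positivity
        have := mul_le_mul_of_nonneg_left hfrac this
        linarith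
    _ ≤ (1 + 12 * Real.sqrt N) * (δ + ε) := by
        have h1 := mul_nonneg hs hδ
        have h2 := mul_nonneg hs hε
        nlinarith

end

end Pool.Agent.Lib_helper12.HE
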